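import Pool.Agent.H10.RIC.Stmts

/-!
# RIC, row CNT: numbers `≤ X ^ κ` of small radical
-/

set_option autoImplicit false

namespace Pool.RIC

open Finset Pool.Agent.H98.ABCR Pool.SHA

lemma cnt44_rad_pos (n : ℕ) : 0 < rad n :=
  Finset.prod_pos fun _ hp => (Nat.prime_of_mem_primeFactors hp).pos

theorem cnt_thm (hSRD : S_SRD) : S_CNT := by
  intro κ ε hκ hε
  obtain ⟨C, hC, hS⟩ := hSRD
  have hE0 : (0 : ℝ) ≤ ε / κ + C ^ 2 * κ / (4 * ε) := by positivity
  refine ⟨Real.exp (ε / κ + C ^ 2 * κ / (4 * ε)), Real.one_le_exp hE0, ?_⟩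
  intro X Y T hX hY hT
  have hX0 : (0 : ℝ) < X := by linarith
  have hY0 : (0 : ℝ) < Y := by linarith
  have hlog : 0 ≤ Real.log X := Real.log_nonneg hX
  set h : ℝ := 1 + κ * Real.log X with hh
  have hkl : 0 ≤ κ * Real.log X := by positivity
  have h1 : 1 ≤ h := by linarith
  have hsub : T ⊆ Icc 1 ⌊Real.exp h⌋₊ := by
    intro n hn
    obtain ⟨a, b, -⟩ := hT n hn
    refine Finset.mem_Icc.mpr ⟨a, Nat.le_floor (b.trans ?_)⟩
    rw [Real.rpow_def_of_pos hX0]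
    apply Real.exp_le_exp.mpr
    rw [hh]
    nlinarith [mul_comm κ (Real.log X)]
  have hsum : (T.card : ℝ) ≤ Y * ∑ n ∈ Icc 1 ⌊Real.exp h⌋₊, (1 : ℝ) / rad n := by
    calc (T.card : ℝ) = ∑ n ∈ T, (1 : ℝ) := by simp
      _ ≤ ∑ n ∈ T, Y * ((1 : ℝ) / rad n) := by
          apply Finset.sum_le_sum
          intro n hn
          obtain ⟨-, -, c⟩ := hT n hn
          have hr : (0 : ℝ) < rad n := by exact_mod_cast cnt44_rad_pos n
          rw [mul_one_div, le_div_iff₀ hr]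
          linarith
      _ ≤ ∑ n ∈ Icc 1 ⌊Real.exp h⌋₊, Y * ((1 : ℝ) / rad n) := by
          apply Finset.sum_le_sum_of_subset_of_nonneg hsub
          intro n _ _
          positivity
      _ = Y * ∑ n ∈ Icc 1 ⌊Real.exp h⌋₊, (1 : ℝ) / rad n := by rw [Finset.mul_sum]
  have hexp : C * Real.sqrt h ≤ (ε / κ + C ^ 2 * κ / (4 * ε)) + ε * Real.log X := by
    have hs := Real.sq_sqrt (by linarith : (0 : ℝ) ≤ h)
    set s := Real.sqrt h with hs'
    have e1 : (ε / κ + C ^ 2 * κ / (4 * ε)) + ε * Real.log X - C * s =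
        (ε / κ) * (s - C * κ / (2 * ε)) ^ 2 := by
      have : (ε / κ) * (s - C * κ / (2 * ε)) ^ 2 =
          (ε / κ) * s ^ 2 - C * s + C ^ 2 * κ / (4 * ε) := by
        field_simp
        ring
      rw [this, hs, hh]
      field_simp
      ring
    have e2 : 0 ≤ (ε / κ) * (s - C * κ / (2 * ε)) ^ 2 := by positivity
    linarith
  calc (T.card : ℝ) ≤ Y * ∑ n ∈ Icc 1 ⌊Real.exp h⌋₊, (1 : ℝ) / rad n := hsum
    _ ≤ Y * Real.exp (C * Real.sqrt h) := by
        apply mul_le_mul_of_nonneg_left (hS h h1) hY0.le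
    _ ≤ Y * Real.exp ((ε / κ + C ^ 2 * κ / (4 * ε)) + ε * Real.log X) := by
        apply mul_le_mul_of_nonneg_left (Real.exp_le_exp.mpr hexp) hY0.le
    _ = Real.exp (ε / κ + C ^ 2 * κ / (4 * ε)) * X ^ ε * Y := by
        rw [Real.exp_add, Real.rpow_def_of_pos hX0, mul_comm (Real.log X) ε]
        ring

end Pool.RIC
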